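import Pool.Agent.Lib.MP_dedb2f_an.Graphs.Card

set_option autoImplicit false

namespace Pool.Agent.Results.MP_dedb2f_an.FiniteGraphs

open Bundle Manifold Pool.Agent.Lib.MP_dedb2f_an

theorem result (E : Type) [NormedAddCommGroup E] [NormedSpace ℝ E] [FiniteDimensional ℝ E]
    (M : Type) [TopologicalSpace M] [T2Space M] [ChartedSpace E M] [IsManifold 𝓘(ℝ, E) 1 M]
    [RiemannianBundle (fun x : M => TangentSpace 𝓘(ℝ, E) x)]
    [IsContinuousRiemannianBundle E (fun x : M => TangentSpace 𝓘(ℝ, E) x)]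
    (U : Type) [MetricSpace U] [CompactSpace U] [ConnectedSpace U]
    (f : U → Diffeomorph 𝓘(ℝ, E) 𝓘(ℝ, E) M M 1)
    (hf : Continuous (fun p : U × M => f p.1 p.2))
    (hfi : Continuous (fun p : U × M => (f p.1).symm p.2))
    (hD : Continuous (fun p : U × TangentBundle 𝓘(ℝ, E) M =>
      tangentMap 𝓘(ℝ, E) 𝓘(ℝ, E) (f p.1) p.2))
    (Q : Set M) (hQ : IsHyperbolic f Q) (hI : IsIsolatedInvariant f (lift f Q))
    (u₀ : ℤ → U) (hfin : (fiber f Q u₀).Finite) :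
    ∃ (n : ℕ) (x : Fin n → (ℤ → U) → M) (σ : Equiv.Perm (Fin n)), 0 < n ∧
      (∀ i, Continuous (x i)) ∧ (∀ u, Function.Injective (fun i => x i u)) ∧
      (∀ u, fiber f Q u = Set.range (fun i => x i u)) ∧
      ∀ i u, f (u 0) (x i u) = x (σ i) (fun t => u (t + 1)) :=
  Graphs.graphs hf hfi hD hQ hI u₀ hfin

end Pool.Agent.Results.MP_dedb2f_an.FiniteGraphs
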