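import Pool.Agent.Lib.MP_dedb2f_an.Main

set_option autoImplicit false

namespace Pool.Agent.Results.MP_dedb2f_an.LSC

open Bundle Manifold Pool.Agent.Lib.MP_dedb2f_an

theorem result (E : Type) [NormedAddCommGroup E] [NormedSpace ℝ E] [FiniteDimensional ℝ E]
    (M : Type) [TopologicalSpace M] [T2Space M] [ChartedSpace E M] [IsManifold 𝓘(ℝ, E) 1 M]
    [RiemannianBundle (fun x : M => TangentSpace 𝓘(ℝ, E) x)]
    [IsContinuousRiemannianBundle E (fun x : M => TangentSpace 𝓘(ℝ, E) x)]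
    (U : Type) [MetricSpace U] [CompactSpace U] [ConnectedSpace U]
    (f : U → Diffeomorph 𝓘(ℝ, E) 𝓘(ℝ, E) M M 1)
    (hf : Continuous (fun p : U × M => f p.1 p.2))
    (hfi : Continuous (fun p : U × M => (f p.1).symm p.2))
    (hD : Continuous (fun p : U × TangentBundle 𝓘(ℝ, E) M =>
      tangentMap 𝓘(ℝ, E) 𝓘(ℝ, E) (f p.1) p.2))
    (Q : Set M) (hQ : IsHyperbolic f Q) (hI : IsIsolatedInvariant f (lift f Q)) :
    ∀ u : ℤ → U, ∀ x ∈ fiber f Q u, ∀ V : Set M, IsOpen V → x ∈ V →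
      ∃ W ∈ nhds u, ∀ v ∈ W, (fiber f Q v ∩ V).Nonempty :=
  fun u x hx V hV hxV => ⟨_, lsc hf hfi hD hQ hI u x hx V hV hxV, fun _ hv => hv⟩

end Pool.Agent.Results.MP_dedb2f_an.LSC
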